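import Pool.Agent.Y242.IM.Stm
import Pool.Agent.Helper859.Br.B0

/-! MP_6f6574_an, statement `S_A`: the circle mean of `1/f'` of a convex univalent map. -/

open Complex MeasureTheory Set Filter Topology Metric

namespace Pool.Agent.Y41.IM

open Pool.Agent.Helper859.Br.B0 (b0_dnz b0_open b0_left b0_diff)

/-- Study's inequality -/
theorem study {f : ℂ → ℂ} (hd : DifferentiableOn ℂ f (ball 0 1)) (hi : InjOn f (ball 0 1))
    (h0 : f 0 = 0) (hc : Convex ℝ (f '' ball 0 1)) {z1 z2 : ℂ} (h12 : ‖z1‖ ≤ ‖z2‖) (h2 : ‖z2‖ < 1)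
    (hz2 : z2 ≠ 0) : 0 ≤ ((f z2 - f z1) / (z2 * deriv f z2)).re := by
  have hm2 : z2 ∈ ball (0 : ℂ) 1 := mem_ball_zero_iff.2 h2
  have hm0 : (0 : ℂ) ∈ ball (0 : ℂ) 1 := mem_ball_self one_pos
  set φ : ℂ → ℂ := Function.invFunOn f (ball 0 1) with hφ
  have hφl : ∀ z ∈ ball (0 : ℂ) 1, φ (f z) = z := fun z hz => b0_left hi z hz
  have hφm : ∀ w ∈ f '' ball (0 : ℂ) 1, φ w ∈ ball (0 : ℂ) 1 := by
    rintro _ ⟨z, hz, rfl⟩
    rw [hφl z hz]; exact hz
  have hφd : DifferentiableOn ℂ φ (f '' ball 0 1) := b0_diff isOpen_ball hd hi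
  set w : ℂ := z1 / z2 with hw
  have hwn : ‖w‖ ≤ 1 := by
    rw [hw, norm_div]
    exact div_le_one_of_le₀ h12 (norm_nonneg _)
  have hwm : ∀ z ∈ ball (0 : ℂ) 1, z * w ∈ ball (0 : ℂ) 1 := by
    intro z hz
    rw [mem_ball_zero_iff] at *
    rw [norm_mul]
    calc ‖z‖ * ‖w‖ ≤ ‖z‖ * 1 := by gcongr
      _ < 1 := by rw [mul_one]; exact hz
  have hz1 : z2 * w = z1 := by rw [hw]; field_simp
  set p : ℝ → ℂ := fun t => φ ((1 - t) • f z2 + t • f z1) with hp
  have hpt : ∀ t : ℝ, 0 < t → t < 1 → ‖p t‖ ≤ ‖z2‖ := by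
    intro t ht0 ht1
    set g : ℂ → ℂ := fun z => φ ((1 - t) • f z + t • f (z * w)) with hg
    have hin : ∀ z ∈ ball (0 : ℂ) 1, (1 - t) • f z + t • f (z * w) ∈ f '' ball 0 1 := fun z hz =>
      hc (mem_image_of_mem f hz) (mem_image_of_mem f (hwm z hz)) (by linarith) ht0.le (by ring)
    have hgd : DifferentiableOn ℂ g (ball 0 1) := by
      refine hφd.comp ?_ hin
      refine DifferentiableOn.add (hd.const_smul (1 - t)) ?_
      exact (hd.comp (by fun_prop) hwm).const_smul t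
    have hg0 : g 0 = 0 := by
      rw [hg]
      simp only [zero_mul, h0, smul_zero, add_zero]
      have := hφl 0 hm0
      rwa [h0] at this
    have hgm : MapsTo g (ball 0 1) (ball 0 1) := fun z hz => hφm _ (hin z hz)
    have := Complex.norm_le_norm_of_mapsTo_ball hgd (hgm.mono_right ball_subset_closedBall) hg0 h2
    have e : p t = g z2 := by
      rw [hp, hg]
      simp only [hz1]
    rw [e]
    exact this
  have hp0 : p 0 = z2 := by
    rw [hp]
    simp only [sub_zero, one_smul, zero_smul, add_zero]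
    exact hφl z2 hm2
  have hne : deriv f z2 ≠ 0 := b0_dnz isOpen_ball hd hi hm2
  have hs : HasStrictDerivAt f (deriv f z2) z2 :=
    (hd.analyticAt (isOpen_ball.mem_nhds hm2)).hasStrictDerivAt
  have hφ1 : HasDerivAt φ (deriv f z2)⁻¹ (f z2) := by
    apply (hs.to_local_left_inverse hne _).hasDerivAt
    filter_upwards [isOpen_ball.mem_nhds hm2] with x hx
    exact hφl x hx
  have hpd : HasDerivAt p ((f z1 - f z2) * (deriv f z2)⁻¹) 0 := by
    have h1 : HasDerivAt (fun t : ℝ => (1 - t) • f z2 + t • f z1) (f z1 - f z2) 0 := by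
      have a1 : HasDerivAt (fun t : ℝ => (1 - t)) (-1) 0 := by
        simpa using (hasDerivAt_id (0:ℝ)).const_sub 1
      have a2 := a1.smul_const (f z2)
      have a3 := (hasDerivAt_id (0:ℝ)).smul_const (f z1)
      have a4 := a2.add a3
      refine a4.congr_deriv ?_
      simp
      ring
    have h3 : HasDerivAt φ (deriv f z2)⁻¹ ((1 - (0:ℝ)) • f z2 + (0:ℝ) • f z1) := by
      simpa using hφ1
    have h4 := h3.scomp (0:ℝ) h1
    refine h4.congr_deriv ?_
    rw [smul_eq_mul]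
  have hN : HasDerivAt (fun t => ‖p t‖ ^ 2)
      (2 * inner ℝ (p 0) ((f z1 - f z2) * (deriv f z2)⁻¹)) 0 := hpd.norm_sq
  have hle : 2 * inner ℝ (p 0) ((f z1 - f z2) * (deriv f z2)⁻¹) ≤ 0 := by
    have h1 := (hasDerivAt_iff_tendsto_slope.1 hN).mono_left
      (nhdsGT_le_nhdsNE (0:ℝ))
    refine le_of_tendsto h1 ?_
    filter_upwards [Ioo_mem_nhdsGT (show (0:ℝ) < 1 by norm_num)] with t ht
    rw [slope_def_field]
    have h2 := hpt t ht.1 ht.2
    have h3 : ‖p t‖ ^ 2 ≤ ‖p 0‖ ^ 2 := by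
      rw [hp0]
      exact pow_le_pow_left₀ (norm_nonneg _) h2 2
    apply div_nonpos_of_nonpos_of_nonneg
    · linarith
    · linarith [ht.1]
  rw [hp0, Complex.inner] at hle
  have hn2 : 0 < ‖z2‖ ^ 2 := by positivity
  have hkey : (f z2 - f z1) / (z2 * deriv f z2) =
      (((‖z2‖ ^ 2)⁻¹ : ℝ) : ℂ) * (-((starRingEnd ℂ) z2 * ((f z1 - f z2) * (deriv f z2)⁻¹))) := by
    have h1 : (starRingEnd ℂ) z2 * z2 = ((‖z2‖ ^ 2 : ℝ) : ℂ) := by
      rw [mul_comm, Complex.mul_conj, Complex.normSq_eq_norm_sq]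
    have h2 : ((‖z2‖ ^ 2 : ℝ) : ℂ) ≠ 0 := by exact_mod_cast hn2.ne'
    rw [Complex.ofReal_inv]
    field_simp
    rw [← h1]
    ring
  rw [hkey, Complex.re_ofReal_mul, Complex.neg_re]
  apply mul_nonneg (by positivity)
  have h5 : ((starRingEnd ℂ) z2 * ((f z1 - f z2) * (deriv f z2)⁻¹)).re ≤ 0 := by
    rw [mul_comm]
    linarith
  linarith

theorem ball_sub {f : ℂ → ℂ} (hd : DifferentiableOn ℂ f (ball 0 1)) (hi : InjOn f (ball 0 1))
    (h0 : f 0 = 0) {r d : ℝ} (hr0 : 0 < r) (hr1 : r < 1) (hd0 : 0 < d)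
    (hb : ∀ z : ℂ, ‖z‖ = r → d ≤ ‖f z‖) : ball (0 : ℂ) d ⊆ f '' ball 0 r := by
  have hsub : ball (0 : ℂ) r ⊆ ball 0 1 := ball_subset_ball hr1.le
  have hsub' : closedBall (0 : ℂ) r ⊆ ball 0 1 := closedBall_subset_ball hr1
  have hopen : IsOpen (f '' ball (0 : ℂ) r) := b0_open isOpen_ball (hd.mono hsub) (hi.mono hsub)
  have hcomp : IsCompact (f '' closedBall (0 : ℂ) r) :=
    (isCompact_closedBall 0 r).image_of_continuousOn (hd.continuousOn.mono hsub')
  apply (convex_ball (0 : ℂ) d).isPreconnected.subset_of_closure_inter_subset hopen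
  · exact ⟨0, mem_ball_self hd0, 0, mem_ball_self hr0, h0⟩
  · rintro x ⟨hx1, hx2⟩
    have h1 : closure (f '' ball (0 : ℂ) r) ⊆ f '' closedBall 0 r :=
      closure_minimal (image_mono ball_subset_closedBall) hcomp.isClosed
    obtain ⟨z, hz, rfl⟩ := h1 hx1
    rw [mem_closedBall_zero_iff] at hz
    rcases hz.lt_or_eq with h2 | h2
    · exact ⟨z, mem_ball_zero_iff.2 h2, rfl⟩
    · exfalso
      have := hb z h2
      rw [mem_ball_zero_iff] at hx2
      linarith

theorem pointwise {f : ℂ → ℂ} (hd : DifferentiableOn ℂ f (ball 0 1)) (hi : InjOn f (ball 0 1))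
    (h0 : f 0 = 0) (hc : Convex ℝ (f '' ball 0 1)) {r d : ℝ} (hr0 : 0 < r) (hr1 : r < 1)
    (hd0 : 0 < d) (hb : ∀ z : ℂ, ‖z‖ = r → d ≤ ‖f z‖) {z : ℂ} (hz : ‖z‖ = r) :
    ‖(deriv f z)⁻¹‖ ≤ r / d * (f z / (z * deriv f z)).re := by
  have hzm : z ∈ ball (0 : ℂ) 1 := mem_ball_zero_iff.2 (by rw [hz]; exact hr1)
  have hne : deriv f z ≠ 0 := b0_dnz isOpen_ball hd hi hzm
  have hz0 : z ≠ 0 := by
    intro h
    rw [h, norm_zero] at hz
    linarith
  have hden : z * deriv f z ≠ 0 := mul_ne_zero hz0 hne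
  obtain ⟨m, hm⟩ : ∃ m, m = ‖z * deriv f z‖ := ⟨_, rfl⟩
  have hm0 : 0 < m := by rw [hm]; exact norm_pos_iff.2 hden
  have key : ∀ s : ℝ, 0 < s → s < d → s ≤ (f z / (z * deriv f z)).re * m := by
    intro s hs0 hsd
    have hin : ((s / m : ℝ) : ℂ) * (z * deriv f z) ∈ ball (0 : ℂ) d := by
      rw [mem_ball_zero_iff, norm_mul, ← hm, Complex.norm_real, Real.norm_eq_abs,
        abs_of_pos (by positivity), div_mul_cancel₀ _ hm0.ne']
      exact hsd
    obtain ⟨z1, hz1, he⟩ := ball_sub hd hi h0 hr0 hr1 hd0 hb hin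
    rw [mem_ball_zero_iff] at hz1
    have h1 := study hd hi h0 hc (z1 := z1) (z2 := z) (by rw [hz]; exact hz1.le)
      (by rw [hz]; exact hr1) hz0
    rw [he, sub_div, mul_div_assoc, div_self hden, mul_one, Complex.sub_re, Complex.ofReal_re] at h1
    have h2 : s / m ≤ (f z / (z * deriv f z)).re := by linarith
    rwa [div_le_iff₀ hm0] at h2
  have h3 : d ≤ (f z / (z * deriv f z)).re * m := by
    by_contra hcon
    push Not at hcon
    obtain ⟨s, hs1, hs2⟩ := exists_between (max_lt hd0 hcon)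
    have hs3 := key s ((le_max_left _ _).trans_lt hs1) hs2
    have hs4 := (le_max_right 0 ((f z / (z * deriv f z)).re * m)).trans_lt hs1
    linarith
  rw [norm_inv]
  have hmr : m = r * ‖deriv f z‖ := by rw [hm, norm_mul, hz]
  have hfp : 0 < ‖deriv f z‖ := norm_pos_iff.2 hne
  rw [hmr] at h3
  rw [inv_eq_one_div, div_le_iff₀ hfp, div_mul_eq_mul_div, div_mul_eq_mul_div, le_div_iff₀ hd0]
  linarith

theorem t_A : Y242.IM.S_A := by
  rintro f ⟨hd, hi, h0, h1, hc⟩ r hr0 hr1 d hd0 hb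
  set q : ℂ → ℂ := fun z => dslope f 0 z / deriv f z with hq
  have hm0 : (0 : ℂ) ∈ ball (0 : ℂ) 1 := mem_ball_self one_pos
  have hdd : DifferentiableOn ℂ (deriv f) (ball 0 1) := hd.deriv isOpen_ball
  have hqd : DifferentiableOn ℂ q (ball 0 1) := by
    refine DifferentiableOn.div ?_ hdd (fun z hz => b0_dnz isOpen_ball hd hi hz)
    exact (Complex.differentiableOn_dslope (isOpen_ball.mem_nhds hm0)).2 hd
  have hq0 : q 0 = 1 := by
    rw [hq]
    simp only [dslope_same, h1, div_one]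
  have hsub' : closedBall (0 : ℂ) r ⊆ ball 0 1 := closedBall_subset_ball hr1
  have havg : Real.circleAverage q 0 r = 1 := by
    rw [← hq0]
    apply DiffContOnCl.circleAverage
    rw [abs_of_pos hr0]
    exact hqd.diffContOnCl_ball hsub'
  have hcm : ∀ θ : ℝ, (r : ℂ) * exp (θ * I) ∈ ball (0 : ℂ) 1 := by
    intro θ
    rw [mem_ball_zero_iff, norm_mul, Complex.norm_exp_ofReal_mul_I, mul_one, Complex.norm_real,
      Real.norm_eq_abs, abs_of_pos hr0]
    exact hr1
  have hcn : ∀ θ : ℝ, ‖(r : ℂ) * exp (θ * I)‖ = r := by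
    intro θ
    rw [norm_mul, Complex.norm_exp_ofReal_mul_I, mul_one, Complex.norm_real,
      Real.norm_eq_abs, abs_of_pos hr0]
  have hcc : Continuous fun θ : ℝ => (r : ℂ) * exp (θ * I) := by fun_prop
  have hqc : Continuous fun θ : ℝ => q ((r : ℂ) * exp (θ * I)) :=
    hqd.continuousOn.comp_continuous hcc hcm
  have hfc : Continuous fun θ : ℝ => ‖(deriv f ((r : ℂ) * exp (θ * I)))⁻¹‖ := by
    apply Continuous.norm
    apply Continuous.inv₀ (hdd.continuousOn.comp_continuous hcc hcm)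
    intro θ
    exact b0_dnz isOpen_ball hd hi (hcm θ)
  have hint : ∫ θ in (0:ℝ)..(2 * Real.pi), q ((r : ℂ) * exp (θ * I)) = (2 * Real.pi : ℝ) := by
    rw [Real.circleAverage_def] at havg
    simp only [circleMap, zero_add] at havg
    have hpi : ((2 * Real.pi : ℝ) : ℂ) ≠ 0 := by
      rw [Complex.ofReal_ne_zero]; positivity
    rw [Complex.real_smul, Complex.ofReal_inv] at havg
    field_simp at havg
    rw [havg]
  have hre : ∫ θ in (0:ℝ)..(2 * Real.pi), (q ((r : ℂ) * exp (θ * I))).re = 2 * Real.pi := by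
    have h2 := Complex.reCLM.intervalIntegral_comp_comm (hqc.intervalIntegrable 0 (2 * Real.pi))
      (μ := volume)
    simp only [Complex.reCLM_apply] at h2
    rw [h2, hint, Complex.ofReal_re]
  have hmono : ∫ θ in (0:ℝ)..(2 * Real.pi), ‖(deriv f ((r : ℂ) * exp (θ * I)))⁻¹‖ ≤
      ∫ θ in (0:ℝ)..(2 * Real.pi), r / d * (q ((r : ℂ) * exp (θ * I))).re := by
    apply intervalIntegral.integral_mono_on (by positivity) (hfc.intervalIntegrable _ _)
    · exact (continuous_const.mul (Complex.continuous_re.comp hqc)).intervalIntegrable _ _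
    · intro θ _
      have hz := hcn θ
      have hz0 : (r : ℂ) * exp (θ * I) ≠ 0 := by
        intro h
        rw [h, norm_zero] at hz
        linarith
      refine (pointwise hd hi h0 hc hr0 hr1 hd0 hb hz).trans (le_of_eq ?_)
      congr 2
      rw [hq]
      simp only
      rw [dslope_of_ne _ hz0, slope_def_field, h0, sub_zero, sub_zero, div_div]
  rw [intervalIntegral.integral_const_mul, hre] at hmono
  unfold Y242.IM.mean
  have hpi : 0 < 2 * Real.pi := by positivity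
  calc (2 * Real.pi)⁻¹ * ∫ θ in (0:ℝ)..(2 * Real.pi), ‖(deriv f ((r : ℂ) * exp (θ * I)))⁻¹‖
      ≤ (2 * Real.pi)⁻¹ * (r / d * (2 * Real.pi)) := by
        exact mul_le_mul_of_nonneg_left hmono (by positivity)
    _ = r / d := by field_simp

end Pool.Agent.Y41.IM
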